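import Pool.Agent.Helper62.LH.StS

/-!
# LH, module EPS: product of two signs
-/

set_option autoImplicit false

open Set Filter Topology MeasureTheory
open Helper62.LH

noncomputable section

namespace Pool.Agent.Helper92.LH

/-- determinant of the matrix of a self-map of `Fin n` -/
def Ep {n : ℕ} (L : Fin n → Fin n) : ℝ :=
  (Matrix.of fun i j => if L i = j then (1 : ℝ) else 0).det

theorem Ep_zero {n : ℕ} (L : Fin n → Fin n) (h : ¬ Function.Injective L) : Ep L = 0 := by
  unfold Function.Injective at h
  push Not at h
  obtain ⟨a, b, hab, hne⟩ := h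
  refine Matrix.det_zero_of_row_eq hne ?_
  ext j
  simp [hab]

theorem Ep_sq {n : ℕ} (L : Fin n → Fin n) (h : Function.Injective L) : Ep L * Ep L = 1 := by
  have hb : Function.Bijective L := Finite.injective_iff_bijective.mp h
  have e1 : (Matrix.of fun i j => if L i = j then (1 : ℝ) else 0) =
      (1 : Matrix (Fin n) (Fin n) ℝ).submatrix (Equiv.ofBijective L hb) id := by
    ext i j
    simp [Matrix.one_apply]
  unfold Ep
  rw [e1, Matrix.det_permute, Matrix.det_one, mul_one]
  rcases Int.units_eq_one_or (Equiv.Perm.sign (Equiv.ofBijective L hb)) with h1 | h1 <;>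
    simp [h1]

theorem Ep_inj {n : ℕ} (L : Fin n → Fin n) (h : Ep L ≠ 0) : Function.Injective L := by
  by_contra hc
  exact h (Ep_zero L hc)

theorem Ep_perm {n : ℕ} (L : Fin n → Fin n) (π : Equiv.Perm (Fin n)) :
    Ep (L ∘ π) = ((Equiv.Perm.sign π : ℤ) : ℝ) * Ep L := by
  unfold Ep
  have := Matrix.det_permute π (Matrix.of fun i j => if L i = j then (1 : ℝ) else 0)
  rw [← this]
  rfl

theorem eps_eq {k l : ℕ} (I : Fin k → Fin (k + l)) (J : Fin l → Fin (k + l)) :
    eps rfl I J = Ep (Fin.append I J) := by
  unfold eps vdet ap Ep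
  congr 1
  ext i j
  refine Fin.addCases (fun a => ?_) (fun b => ?_) i
  · simp [ee, eq_comm]
  · simp [ee, eq_comm]

/-- permutation of the two blocks -/
def bp {k l : ℕ} (σ : Equiv.Perm (Fin k)) (τ : Equiv.Perm (Fin l)) : Equiv.Perm (Fin (k + l)) :=
  finSumFinEquiv.permCongr (Equiv.Perm.sumCongr σ τ)

theorem bp_sign {k l : ℕ} (σ : Equiv.Perm (Fin k)) (τ : Equiv.Perm (Fin l)) :
    Equiv.Perm.sign (bp σ τ) = Equiv.Perm.sign σ * Equiv.Perm.sign τ := by
  unfold bp
  rw [Equiv.Perm.sign_permCongr, Equiv.Perm.sign_sumCongr]

theorem append_bp {k l : ℕ} {α : Type} (I : Fin k → α) (J : Fin l → α)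
    (σ : Equiv.Perm (Fin k)) (τ : Equiv.Perm (Fin l)) :
    Fin.append (I ∘ σ) (J ∘ τ) = Fin.append I J ∘ bp σ τ := by
  funext i
  refine Fin.addCases (fun a => ?_) (fun b => ?_) i
  · simp [bp, Equiv.permCongr_apply]
  · simp [bp, Equiv.permCongr_apply]

theorem eps_perm {k l : ℕ} (I : Fin k → Fin (k + l)) (J : Fin l → Fin (k + l))
    (σ : Equiv.Perm (Fin k)) (τ : Equiv.Perm (Fin l)) :
    eps rfl (I ∘ σ) (J ∘ τ) =
      ((Equiv.Perm.sign σ : ℤ) : ℝ) * ((Equiv.Perm.sign τ : ℤ) : ℝ) * eps rfl I J := by
  rw [eps_eq, eps_eq, append_bp, Ep_perm, bp_sign]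
  push_cast
  ring

theorem sgn_sq {k : ℕ} (σ : Equiv.Perm (Fin k)) :
    ((Equiv.Perm.sign σ : ℤ) : ℝ) * ((Equiv.Perm.sign σ : ℤ) : ℝ) = 1 := by
  rcases Int.units_eq_one_or (Equiv.Perm.sign σ) with h1 | h1 <;> simp [h1]

/-- two injective completions of the same block differ by a permutation (first block) -/
theorem ex_perm_left {k l : ℕ} (I K : Fin k → Fin (k + l)) (J : Fin l → Fin (k + l))
    (hI : Function.Injective (Fin.append I J)) (hK : Function.Injective (Fin.append K J)) :
    ∃ σ : Equiv.Perm (Fin k), I = K ∘ σ := by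
  have hKs : Function.Surjective (Fin.append K J) := Finite.injective_iff_surjective.mp hK
  have h1 : ∀ a, ∃ b, K b = I a := by
    intro a
    obtain ⟨i, hi⟩ := hKs (I a)
    revert hi
    refine Fin.addCases (fun b => ?_) (fun b => ?_) i
    · intro hi
      exact ⟨b, by simpa using hi⟩
    · intro hi
      exfalso
      have h2 : Fin.append I J (Fin.natAdd k b) = Fin.append I J (Fin.castAdd l a) := by
        simpa using hi
      have h3 := hI h2
      have h4 := congrArg Fin.val h3
      simp at h4
      have := a.isLt
      omega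
  choose s hs using h1
  have hsi : Function.Injective s := by
    intro a a' haa
    have h2 : I a = I a' := by rw [← hs a, ← hs a', haa]
    have h3 : Fin.append I J (Fin.castAdd l a) = Fin.append I J (Fin.castAdd l a') := by
      simpa using h2
    exact Fin.castAdd_injective k l (hI h3)
  refine ⟨Equiv.ofBijective s (Finite.injective_iff_bijective.mp hsi), ?_⟩
  funext a
  simp [hs a]

/-- the same for the second block -/
theorem ex_perm_right {k l : ℕ} (K : Fin k → Fin (k + l)) (J J' : Fin l → Fin (k + l))
    (hI : Function.Injective (Fin.append K J)) (hK : Function.Injective (Fin.append K J')) :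
    ∃ σ : Equiv.Perm (Fin l), J = J' ∘ σ := by
  have hKs : Function.Surjective (Fin.append K J') := Finite.injective_iff_surjective.mp hK
  have h1 : ∀ a, ∃ b, J' b = J a := by
    intro a
    obtain ⟨i, hi⟩ := hKs (J a)
    revert hi
    refine Fin.addCases (fun b => ?_) (fun b => ?_) i
    · intro hi
      exfalso
      have h2 : Fin.append K J (Fin.castAdd l b) = Fin.append K J (Fin.natAdd k a) := by
        simpa using hi
      have h3 := hI h2
      have h4 := congrArg Fin.val h3
      simp at h4
      have := b.isLt
      omega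
    · intro hi
      exact ⟨b, by simpa using hi⟩
  choose s hs using h1
  have hsi : Function.Injective s := by
    intro a a' haa
    have h2 : J a = J a' := by rw [← hs a, ← hs a', haa]
    have h3 : Fin.append K J (Fin.natAdd k a) = Fin.append K J (Fin.natAdd k a') := by
      simpa using h2
    exact Fin.natAdd_injective l k (hI h3)
  refine ⟨Equiv.ofBijective s (Finite.injective_iff_bijective.mp hsi), ?_⟩
  funext a
  simp [hs a]

/-- existence of a completion -/
theorem ex_compl {k l : ℕ} (K : Fin k → Fin (k + l)) (hK : Function.Injective K) :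
    ∃ J : Fin l → Fin (k + l), Function.Injective (Fin.append K J) := by
  classical
  set S : Finset (Fin (k + l)) := (Finset.univ.image K)ᶜ with hS
  have hc : S.card = l := by
    rw [hS, Finset.card_compl, Finset.card_image_of_injective _ hK]
    simp
  refine ⟨S.orderEmbOfFin hc, ?_⟩
  have hmem : ∀ b, ∀ a, S.orderEmbOfFin hc b ≠ K a := by
    intro b a hba
    have h1 := S.orderEmbOfFin_mem hc b
    rw [hba, hS, Finset.mem_compl] at h1
    exact h1 (Finset.mem_image_of_mem _ (Finset.mem_univ _))
  intro i i'
  refine Fin.addCases (fun a => ?_) (fun b => ?_) i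
  · refine Fin.addCases (fun a' => ?_) (fun b' => ?_) i'
    · intro h
      have : K a = K a' := by simpa using h
      rw [hK this]
    · intro h
      exfalso
      have : K a = S.orderEmbOfFin hc b' := by simpa using h
      exact hmem b' a this.symm
  · refine Fin.addCases (fun a' => ?_) (fun b' => ?_) i'
    · intro h
      exfalso
      have : S.orderEmbOfFin hc b = K a' := by simpa using h
      exact hmem b a' this
    · intro h
      have : S.orderEmbOfFin hc b = S.orderEmbOfFin hc b' := by simpa using h
      rw [(S.orderEmbOfFin hc).injective this]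

theorem append_inj_left {k l : ℕ} (K : Fin k → Fin (k + l)) (J : Fin l → Fin (k + l))
    (h : Function.Injective (Fin.append K J)) : Function.Injective K := by
  intro a a' haa
  have h3 : Fin.append K J (Fin.castAdd l a) = Fin.append K J (Fin.castAdd l a') := by
    simpa using haa
  exact Fin.castAdd_injective k l (h h3)

theorem append_inj_right {k l : ℕ} (K : Fin k → Fin (k + l)) (J : Fin l → Fin (k + l))
    (h : Function.Injective (Fin.append K J)) : Function.Injective J := by
  intro a a' haa
  have h3 : Fin.append K J (Fin.natAdd k a) = Fin.append K J (Fin.natAdd k a') := by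
    simpa using haa
  exact Fin.natAdd_injective l k (h h3)

/-- EPS. -/
theorem hEps : StEps := by
  intro n k l h F hF0 hFs K
  subst h
  rw [Finset.sum_comm]
  by_cases hK : Function.Injective K
  swap
  · rw [hF0 K hK, mul_zero]
    refine Finset.sum_eq_zero fun J _ => Finset.sum_eq_zero fun I _ => ?_
    have : eps rfl K J = 0 := by
      rw [eps_eq]
      exact Ep_zero _ fun hi => hK (append_inj_left K J hi)
    rw [this]
    ring
  -- inner sum
  have hin : ∀ J : Fin l → Fin (k + l),
      ∑ I : Fin k → Fin (k + l), eps rfl I J * eps rfl K J * F I =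
        (k.factorial : ℝ) * F K * (eps rfl K J * eps rfl K J) := by
    intro J
    by_cases hKJ : eps rfl K J = 0
    · rw [hKJ]
      simp
    have hKi : Function.Injective (Fin.append K J) := by
      rw [eps_eq] at hKJ
      exact Ep_inj _ hKJ
    have hinj : Function.Injective (fun σ : Equiv.Perm (Fin k) => K ∘ σ) := by
      intro σ σ' hss
      ext a
      have := congrFun hss a
      exact congrArg Fin.val (hK this)
    have hsum := Fintype.sum_of_injective (fun σ : Equiv.Perm (Fin k) => K ∘ σ) hinj
      (fun _ => eps rfl K J * eps rfl K J * F K)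
      (fun I => eps rfl I J * eps rfl K J * F I)
      (by
        intro I hI
        by_contra hne
        have h1 : eps rfl I J ≠ 0 := by
          intro h0
          apply hne
          simp [h0]
        rw [eps_eq] at h1
        obtain ⟨σ, hσ⟩ := ex_perm_left I K J (Ep_inj _ h1) hKi
        exact hI ⟨σ, hσ.symm⟩)
      (by
        intro σ
        have e1 : eps rfl (K ∘ σ) J = ((Equiv.Perm.sign σ : ℤ) : ℝ) * eps rfl K J := by
          have := eps_perm K J σ 1
          simpa using this
        show eps rfl K J * eps rfl K J * F K =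
          eps rfl (K ∘ σ) J * eps rfl K J * F (K ∘ σ)
        rw [e1, hFs K σ]
        have := sgn_sq σ
        linear_combination (-(eps rfl K J * eps rfl K J * F K)) * this)
    rw [← hsum, Finset.sum_const, Finset.card_univ, Fintype.card_perm, Fintype.card_fin,
      nsmul_eq_mul]
    ring
  simp only [hin]
  rw [← Finset.mul_sum]
  -- number of completions
  have hcount : ∑ J : Fin l → Fin (k + l), eps rfl K J * eps rfl K J = (l.factorial : ℝ) := by
    obtain ⟨J₀, hJ₀⟩ := ex_compl K hK
    have hJ₀i := append_inj_right K J₀ hJ₀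
    have hinj : Function.Injective (fun σ : Equiv.Perm (Fin l) => J₀ ∘ σ) := by
      intro σ σ' hss
      ext a
      have := congrFun hss a
      exact congrArg Fin.val (hJ₀i this)
    have hsum := Fintype.sum_of_injective (fun σ : Equiv.Perm (Fin l) => J₀ ∘ σ) hinj
      (fun _ => (1 : ℝ))
      (fun J => eps rfl K J * eps rfl K J)
      (by
        intro J hJ
        by_contra hne
        have h1 : eps rfl K J ≠ 0 := by
          intro h0
          apply hne
          simp [h0]
        rw [eps_eq] at h1
        obtain ⟨σ, hσ⟩ := ex_perm_right K J J₀ (Ep_inj _ h1) hJ₀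
        exact hJ ⟨σ, hσ.symm⟩)
      (by
        intro σ
        have e1 : eps rfl K (J₀ ∘ σ) = ((Equiv.Perm.sign σ : ℤ) : ℝ) * eps rfl K J₀ := by
          have := eps_perm K J₀ 1 σ
          simpa using this
        have e2 : eps rfl K J₀ * eps rfl K J₀ = 1 := by
          rw [eps_eq]
          exact Ep_sq _ hJ₀
        show (1 : ℝ) = eps rfl K (J₀ ∘ σ) * eps rfl K (J₀ ∘ σ)
        rw [e1]
        have := sgn_sq σ
        linear_combination (-(eps rfl K J₀ * eps rfl K J₀)) * this - e2)
    rw [← hsum, Finset.sum_const, Finset.card_univ, Fintype.card_perm, Fintype.card_fin,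
      nsmul_eq_mul]
    ring
  rw [hcount]
  ring

end Pool.Agent.Helper92.LH
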